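import Pool.Agent.PCL.Stmts

/-!
# Squad PCL, row DST (MP_1fc801_co): few distances give many orthogonal pairs
-/

set_option autoImplicit false

namespace Pool.Agent.PCL.H51

/-- Cauchy-Schwarz for the fibres of a function. -/
theorem fibres {α : Type} (A : Finset α) (h : α → ℝ) [DecidableEq α]
    [DecidablePred fun s : α × α => h s.1 = h s.2] :
    (A.card : ℝ) ^ 2 ≤ ((A.image h).card : ℝ) *
      (((A ×ˢ A).filter fun s => h s.1 = h s.2).card : ℝ) := by
  classical
  have h1 : A.card = ∑ d ∈ A.image h, (A.filter fun x => h x = d).card :=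
    Finset.card_eq_sum_card_image h A
  have h2 : ((A ×ˢ A).filter fun s => h s.1 = h s.2).card =
      ∑ d ∈ A.image h, (A.filter fun x => h x = d).card ^ 2 := by
    rw [Finset.card_eq_sum_card_fiberwise (f := fun s : α × α => h s.1) (t := A.image h)]
    · refine Finset.sum_congr rfl fun d _ => ?_
      rw [sq, ← Finset.card_product]
      congr 1
      ext ⟨x, y⟩
      simp only [Finset.mem_filter, Finset.mem_product]
      constructor
      · rintro ⟨⟨⟨hx, hy⟩, he⟩, hd⟩
        exact ⟨⟨hx, hd⟩, hy, he ▸ hd⟩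
      · rintro ⟨⟨hx, hd⟩, hy, he⟩
        exact ⟨⟨⟨hx, hy⟩, hd.trans he.symm⟩, hd⟩
    · intro s hs
      have hs' := (Finset.mem_filter.1 (Finset.mem_coe.1 hs)).1
      exact Finset.mem_coe.2 (Finset.mem_image_of_mem h (Finset.mem_product.1 hs').1)
  rw [h2]
  have h3 : (A.card : ℝ) = ∑ d ∈ A.image h, ((A.filter fun x => h x = d).card : ℝ) := by
    have := congrArg (fun n : ℕ => (n : ℝ)) h1
    push_cast at this
    exact this
  rw [h3]
  push_cast
  exact sq_sum_le_card_mul_sum_sq

/-- Equal distances give an orthogonal pair. -/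
theorem perpOf (z z' : ℂ) (h : ‖z‖ = ‖z'‖) : Perp (z - z') (z + z') := by
  have h1 : Complex.normSq z = Complex.normSq z' := by
    rw [Complex.normSq_eq_norm_sq, Complex.normSq_eq_norm_sq, h]
  rw [Complex.normSq_apply, Complex.normSq_apply] at h1
  unfold Perp
  simp only [Complex.mul_re, Complex.conj_re, Complex.conj_im, Complex.sub_re, Complex.sub_im,
    Complex.add_re, Complex.add_im]
  linear_combination h1

/-- Row DST. -/
theorem dst : DstStmt := by
  classical
  intro ι _ _ g N a P hg hP
  choose! c hc using hP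
  -- the differences of coordinate vectors
  have hbox : ∀ p ∈ P, ∀ q ∈ P, ∀ p' ∈ P, ∀ q' ∈ P,
      (c p - c q - (c p' - c q')) ∈ bx N 4 ∧ (c p - c q + (c p' - c q')) ∈ bx N 4 := by
    intro p hp q hq p' hp' q' hq'
    have e1 := mem_bx.1 (hc p hp).1
    have e2 := mem_bx.1 (hc q hq).1
    have e3 := mem_bx.1 (hc p' hp').1
    have e4 := mem_bx.1 (hc q' hq').1
    constructor
    · refine mem_bx.2 fun i => ?_
      have f1 := abs_le.1 (e1 i)
      have f2 := abs_le.1 (e2 i)
      have f3 := abs_le.1 (e3 i)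
      have f4 := abs_le.1 (e4 i)
      simp only [Pi.sub_apply, Int.cast_sub]
      rw [abs_le]
      constructor <;> linarith [f1.1, f1.2, f2.1, f2.2, f3.1, f3.2, f4.1, f4.2]
    · refine mem_bx.2 fun i => ?_
      have f1 := abs_le.1 (e1 i)
      have f2 := abs_le.1 (e2 i)
      have f3 := abs_le.1 (e3 i)
      have f4 := abs_le.1 (e4 i)
      simp only [Pi.sub_apply, Pi.add_apply, Int.cast_sub, Int.cast_add]
      rw [abs_le]
      constructor <;> linarith [f1.1, f1.2, f2.1, f2.2, f3.1, f3.2, f4.1, f4.2]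
  have hpt : ∀ p ∈ P, ∀ q ∈ P, pt g (c p - c q) = p - q := by
    intro p hp q hq
    have e1 := (hc p hp).2
    have e2 := (hc q hq).2
    rw [pt_sub]
    linear_combination e2 - e1
  set A : Finset (ℂ × ℂ) := P ×ˢ P with hA
  set h : ℂ × ℂ → ℝ := fun s => dist s.1 s.2 with hh
  have hcs := fibres A h
  -- the number of the distances
  have hnd : ((A.image h).card : ℝ) ≤ (nd P : ℝ) + 1 := by
    have h1 : A.image h ⊆ insert (0 : ℝ) (P.offDiag.image fun p => dist p.1 p.2) := by
      intro d hd
      obtain ⟨s, hs, rfl⟩ := Finset.mem_image.1 hd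
      have hs' := Finset.mem_product.1 hs
      by_cases he : s.1 = s.2
      · refine Finset.mem_insert.2 (Or.inl ?_)
        show dist s.1 s.2 = 0
        rw [he, dist_self]
      · refine Finset.mem_insert_of_mem (Finset.mem_image.2 ⟨s, ?_, rfl⟩)
        exact Finset.mem_offDiag.2 ⟨hs'.1, hs'.2, he⟩
    have h2 := Finset.card_le_card h1
    have h3 := Finset.card_insert_le (0 : ℝ) (P.offDiag.image fun p => dist p.1 p.2)
    have h4 : (P.offDiag.image fun p => dist p.1 p.2).card = nd P := by
      unfold nd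
      refine congrArg Finset.card ?_
      ext d
      simp only [Finset.mem_image, Finset.mem_offDiag]
    have h5 : (A.image h).card ≤ nd P + 1 := by omega
    exact_mod_cast h5
  -- the quadruples
  have hq : (((A ×ˢ A).filter fun s => h s.1 = h s.2).card : ℝ) ≤
      (P.card : ℝ) ^ 2 * prp g N 4 := by
    have h1 : ((A ×ˢ A).filter fun s => h s.1 = h s.2).card ≤
        ((P ×ˢ P) ×ˢ ((bx N 4 ×ˢ bx N 4).filter
          fun p => Perp (pt g p.1) (pt g p.2))).card := by
      refine Finset.card_le_card_of_injOn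
        (fun s => ((s.1.1, s.2.1), (c s.1.1 - c s.1.2 - (c s.2.1 - c s.2.2),
          c s.1.1 - c s.1.2 + (c s.2.1 - c s.2.2)))) ?_ ?_
      · rintro ⟨⟨p, q⟩, p', q'⟩ hs
        have hs' := Finset.mem_filter.1 (Finset.mem_coe.1 hs)
        have hs1 := Finset.mem_product.1 hs'.1
        have hs2 := Finset.mem_product.1 hs1.1
        have hs3 := Finset.mem_product.1 hs1.2
        have hd : dist p q = dist p' q' := hs'.2
        refine Finset.mem_coe.2 (Finset.mem_product.2 ⟨Finset.mem_product.2 ⟨hs2.1, hs3.1⟩,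
          Finset.mem_filter.2 ⟨Finset.mem_product.2 ?_, ?_⟩⟩)
        · exact hbox p hs2.1 q hs2.2 p' hs3.1 q' hs3.2
        · show Perp (pt g (c p - c q - (c p' - c q'))) (pt g (c p - c q + (c p' - c q')))
          rw [pt_sub, pt_add, hpt p hs2.1 q hs2.2, hpt p' hs3.1 q' hs3.2]
          refine perpOf _ _ ?_
          rw [← dist_eq_norm, ← dist_eq_norm]
          exact hd
      · rintro ⟨⟨p, q⟩, p', q'⟩ hs ⟨⟨p1, q1⟩, p1', q1'⟩ ht he
        have hs' := Finset.mem_filter.1 (Finset.mem_coe.1 hs)
        have hs1 := Finset.mem_product.1 hs'.1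
        have hs2 := Finset.mem_product.1 hs1.1
        have hs3 := Finset.mem_product.1 hs1.2
        have ht' := Finset.mem_filter.1 (Finset.mem_coe.1 ht)
        have ht1 := Finset.mem_product.1 ht'.1
        have ht2 := Finset.mem_product.1 ht1.1
        have ht3 := Finset.mem_product.1 ht1.2
        simp only [Prod.mk.injEq] at he
        obtain ⟨⟨e1, e2⟩, e3, e4⟩ := he
        subst e1
        subst e2
        have e5 : c p - c q = c p - c q1 := by
          funext i
          have i3 := congrFun e3 i
          have i4 := congrFun e4 i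
          simp only [Pi.sub_apply, Pi.add_apply] at i3 i4 ⊢
          omega
        have e6 : c p' - c q' = c p' - c q1' := by
          funext i
          have i3 := congrFun e3 i
          have i4 := congrFun e4 i
          simp only [Pi.sub_apply, Pi.add_apply] at i3 i4 ⊢
          omega
        have e7 := hpt p hs2.1 q hs2.2
        rw [e5, hpt p hs2.1 q1 ht2.2] at e7
        have e8 := hpt p' hs3.1 q' hs3.2
        rw [e6, hpt p' hs3.1 q1' ht3.2] at e8
        have e9 : q = q1 := by linear_combination e7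
        have e10 : q' = q1' := by linear_combination e8
        rw [e9, e10]
    have h2 : ((P ×ˢ P) ×ˢ ((bx N 4 ×ˢ bx N 4).filter
        fun p => Perp (pt g p.1) (pt g p.2))).card = P.card ^ 2 * prp g N 4 := by
      rw [Finset.card_product, Finset.card_product, sq]
      refine congrArg (fun n : ℕ => P.card * P.card * n) ?_
      unfold prp
      refine congrArg Finset.card ?_
      ext d
      simp only [Finset.mem_filter, Finset.mem_product]
    rw [h2] at h1
    exact_mod_cast h1
  have hAc : (A.card : ℝ) = (P.card : ℝ) ^ 2 := by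
    rw [hA, Finset.card_product]
    push_cast
    ring
  rw [hAc] at hcs
  rcases Nat.eq_zero_or_pos P.card with h0 | h0
  · rw [h0]
    have : (0 : ℝ) ≤ ((nd P : ℝ) + 1) * prp g N 4 := by positivity
    simpa using this
  · have hpos : (0 : ℝ) < (P.card : ℝ) ^ 2 := by
      have : (0 : ℝ) < (P.card : ℝ) := by exact_mod_cast h0
      positivity
    have h1 : ((P.card : ℝ) ^ 2) ^ 2 ≤
        ((nd P : ℝ) + 1) * ((P.card : ℝ) ^ 2 * prp g N 4) := by
      refine le_trans hcs (mul_le_mul hnd hq (by positivity) (by positivity))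
    have h2 : (P.card : ℝ) ^ 2 * (P.card : ℝ) ^ 2 ≤
        (P.card : ℝ) ^ 2 * (((nd P : ℝ) + 1) * prp g N 4) := by
      calc (P.card : ℝ) ^ 2 * (P.card : ℝ) ^ 2 = ((P.card : ℝ) ^ 2) ^ 2 := by ring
        _ ≤ _ := h1
        _ = _ := by ring
    exact le_of_mul_le_mul_left h2 hpos

end Pool.Agent.PCL.H51
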